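import Pool.Agent.H60.HED.Defs

/-! # HED, module GEN: at most `k` of finitely many point evaluations are small -/

set_option autoImplicit false

namespace Pool.Agent.H60.HED

private noncomputable def gpoly (k : ℕ) (x : E k) : Polynomial ℝ :=
  ∑ j : Fin (k + 1), Polynomial.C (x j) * Polynomial.X ^ (j : ℕ)

private theorem gpoly_eval (k : ℕ) (x : E k) (t : ℝ) : (gpoly k x).eval t = pe k x t := by
  simp [gpoly, pe, Polynomial.eval_finsetSum]

private theorem gpoly_coeff (k : ℕ) (x : E k) (i : Fin (k + 1)) :
    (gpoly k x).coeff (i : ℕ) = x i := by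
  unfold gpoly
  rw [Polynomial.finsetSum_coeff, Finset.sum_eq_single i]
  · rw [Polynomial.coeff_C_mul_X_pow, if_pos rfl]
  · intro j _ hj
    rw [Polynomial.coeff_C_mul_X_pow, if_neg]
    exact fun h => hj (Fin.ext h.symm)
  · intro h
    exact absurd (Finset.mem_univ i) h

private theorem gpoly_deg (k : ℕ) (x : E k) : (gpoly k x).natDegree ≤ k := by
  unfold gpoly
  refine Polynomial.natDegree_sum_le_of_forall_le _ _ fun j _ => ?_
  exact (Polynomial.natDegree_C_mul_X_pow_le _ _).trans (Nat.lt_succ_iff.1 j.2)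

theorem gen : S_GEN := by
  classical
  intro k I _ t ht
  have hcont : ∀ s : ℝ, Continuous fun x : E k => pe k x s := by
    intro s
    unfold pe
    fun_prop
  have key : ∀ T : Finset I, ∃ ε : ℝ, 0 < ε ∧
      (T.card = k + 1 → ∀ x ∈ Sph k, ∃ i ∈ T, ε ≤ |pe k x (t i)|) := by
    intro T
    by_cases hT : T.card = k + 1
    · have hne : (Sph k).Nonempty := NormedSpace.sphere_nonempty.2 zero_le_one
      obtain ⟨x0, hx0, hmin⟩ := (isCompact_sphere (0 : E k) 1).exists_isMinOn hne
        (f := fun x : E k => ∑ i ∈ T, |pe k x (t i)|)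
        (continuous_finsetSum _ fun i _ => (hcont (t i)).abs).continuousOn
      have hpos : 0 < ∑ i ∈ T, |pe k x0 (t i)| := by
        by_contra hle
        have h0 : ∑ i ∈ T, |pe k x0 (t i)| = 0 :=
          le_antisymm (not_lt.1 hle) (Finset.sum_nonneg fun _ _ => abs_nonneg _)
        have h1 : ∀ i ∈ T, pe k x0 (t i) = 0 := by
          intro i hi
          have := (Finset.sum_eq_zero_iff_of_nonneg (fun _ _ => abs_nonneg _)).1 h0 i hi
          exact abs_eq_zero.1 this
        have h2 : gpoly k x0 = 0 := by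
          refine Polynomial.eq_zero_of_natDegree_lt_card_of_eval_eq_zero' (gpoly k x0)
            (T.image t) ?_ ?_
          · intro s hs
            obtain ⟨i, hi, rfl⟩ := Finset.mem_image.1 hs
            rw [gpoly_eval]
            exact h1 i hi
          · rw [Finset.card_image_of_injective _ ht, hT]
            exact Nat.lt_succ_of_le (gpoly_deg k x0)
        have h3 : x0 = 0 := by
          funext i
          rw [← gpoly_coeff k x0 i, h2]
          simp
        rw [h3] at hx0
        simp at hx0
      refine ⟨(∑ i ∈ T, |pe k x0 (t i)|) / (k + 1), by positivity, fun _ x hx => ?_⟩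
      by_contra hcon
      push Not at hcon
      have h1 : ∑ i ∈ T, |pe k x (t i)| <
          ∑ i ∈ T, (∑ i ∈ T, |pe k x0 (t i)|) / ((k : ℝ) + 1) := by
        refine Finset.sum_lt_sum_of_nonempty ?_ hcon
        rw [← Finset.card_pos, hT]
        omega
      rw [Finset.sum_const, hT, nsmul_eq_mul] at h1
      have h2 : ((k + 1 : ℕ) : ℝ) * ((∑ i ∈ T, |pe k x0 (t i)|) / ((k : ℝ) + 1)) =
          ∑ i ∈ T, |pe k x0 (t i)| := by
        push_cast
        field_simp
      rw [h2] at h1
      exact absurd (isMinOn_iff.1 hmin x hx) (not_le.2 h1)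
    · exact ⟨1, one_pos, fun h => absurd h hT⟩
  choose e he1 he2 using key
  refine ⟨Finset.univ.inf' Finset.univ_nonempty e, ?_, ?_⟩
  · rw [Finset.lt_inf'_iff]
    exact fun T _ => he1 T
  · intro x hx F hF
    by_contra hcard
    push Not at hcard
    obtain ⟨T, hTF, hT⟩ := Finset.exists_subset_card_eq (Nat.succ_le_of_lt hcard)
    obtain ⟨i, hi, hi2⟩ := he2 T hT x hx
    have h1 := hF i (hTF hi)
    have h2 := Finset.inf'_le e (Finset.mem_univ T)
    linarith

end Pool.Agent.H60.HED
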